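import Pool.Agent.Helper91.VD1.D0
import Pool.Agent.Helper91.VD1.D1
import Pool.Agent.Helper91.VD1.D2
import Pool.Agent.Helper91.VD1.D3
import Pool.Agent.Helper91.VD1.D4
import Pool.Agent.Helper91.VD1.D5
import Pool.Agent.Helper91.VD1.D6
import Pool.Agent.Helper91.VD1.D7
import Pool.Agent.Helper91.VD1.D8
import Pool.Agent.Helper91.VD1.D9
import Pool.Agent.Helper91.VD1.D10
import Pool.Agent.Helper91.VD1.D11
import Pool.Agent.Helper91.VD1.D12
import Pool.Agent.Helper91.VD1.D13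
import Pool.Agent.Helper91.VD1.D14
import Pool.Agent.Helper91.VD1.D15
import Pool.Agent.Helper91.VD1.D16
import Pool.Agent.Helper91.VD1.D17
import Pool.Agent.Helper91.VD1.D18
import Pool.Agent.Helper91.VD1.D19
import Pool.Agent.Helper91.VD1.D20
import Pool.Agent.Helper91.VD1.D21
import Pool.Agent.Helper91.VD1.D22
import Pool.Agent.Helper91.VD1.D23
import Pool.Agent.Helper91.VD1.D24
import Pool.Agent.Helper91.VD1.D25
import Pool.Agent.Helper91.VD1.D26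
import Pool.Agent.Helper91.VD1.D27
import Pool.Agent.Helper91.VD1.D28
import Pool.Agent.Helper91.VD1.D29
import Pool.Agent.Helper91.VD1.D30
import Pool.Agent.Helper91.VD1.D31

/-! data -/

namespace Pool.Agent.Helper91.VD1

open Pool.Agent.Helper91.VZ

set_option maxRecDepth 100000

noncomputable def DT : Dc :=
(.s 0x55f54447403aa2284288 0xd2fd5221f52df5d (.s 23 600 0x11 .z)
 (.s 0x1555d1081d510870 0xf5d2390f6d15 (.s 19 495 0x5 .z)
 (.s 0xaaa0e15111d10 0x31139fd52d2 (.s 0 384 0x1d .z)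
 (.s 0x2be883a21510 0x3d20f691d2 (.s 7 347 0xf .z)
 (.s 0x4bfb8075420 0xdd1222239 (.s 5 306 0x5 .z)
 E0 E1) (.s 0x1574115111f40 0x362f753492 (.s 5 369 0xb .z)
 E2 E3)) (.s 0x577dc202ee8210 0xd2d2d120ce69 (.s 16 396 0x5 .z)
 (.s 0x4bea22815dc210 0x33399122f5d (.s 15 390 0xd .z)
 E4 E5) (.s 0x2bffa201ddc2108 0xf6aad233992 (.s 12 432 0x19 .z)
 E6 E7))) (.s 0x2afb84142a88a22288 0xce637f7d5f56 (.s 20 527 0xd .z)
 (.s 0x4baa228885df70140 0xd0fdf56492239 (.s 21 498 0x5 .z)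
 (.s 0x1dd7d44015445110 0xfdf569489d2 (.s 21 468 0x9 .z)
 E8 E9) (.s 0x575445110ba888450 0x33f7d5b3f595 (.s 23 516 0x5 .z)
 E10 E11)) (.s 0x15f7511440754451050 0x3df5922352f7d5 (.s 21 567 0x21 .z)
 (.s 0x1554451115444741f40 0x34bf57f7d54886 (.s 22 552 0xe000000000000000000000000e038000380e000000000000000000000e (.s 17 567 0xb .z))
 E12 E13) (.s 0x4aaeb841411551142288 0xd0ce591df5df5d (.s 21 582 0x1f .z)
 E14 E15)))) (.s 0xaaba208fa20aa22888aa22888 0xfdf57f7d570f6562d2 (.s 8 792 0xd .z)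
 (.s 0xafaa228883fee101544508 0xce6a20fdf569df5d (.s 21 696 0x29 .z)
 (.s 0x155511444475445110ba08 0xcfdf56fdf5756d (.s 21 669 0xb (.s 13 690 0x7 .z))
 (.s 0x2aea88a22117df5010450 0xd122d22dcfdf565d (.s 15 636 0x25 .z)
 E16 E17) (.s 0x15fd5111500aa88a222850 0xd1fd522235fdf55d (.s 8 681 0x7 .z)
 E18 E19)) (.s 0x2aea88a221c2a88a223aa0e0 0xfdf54e3f7d5963935 (.s 23 735 0x9 .z)
 (.s 0x55f701708aa22888aa22888 0x3f7d5fdf55ce5a39 (.s 8 720 0x9 .z)
 E20 E21) (.s 0x1557dd041c1c2a88a222a2288 0x3bdf5fdf5553922d2d (.s 21 770 0xd .z)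
 E22 E23))) (.s 0x7554451115f4070aa88a222a88a10 0xd22139fdf552fdf55df5d (.s 21 914 0x41 .z)
 (.s 0x2afefa0501708aa22888aa22888 0xd03f7d5fdf55ce5a922d (.s 10 834 0x7 .z)
 (.s 0x5575445110e823aa2288877d00 0x348fdf5674fdf564922d (.s 22 804 0x23 .z)
 E24 E25) (.s 0xaabaa228884510aea88a2207dc20 0x3f7d5910ce69f73f7d595 (.s 22 888 0x33 .z)
 E26 E27)) (.s 0x2babaa2288845110aea88a20a88a21d10 0xf63f73f7d59591f7d52f7d5 (.s 16 1044 0x25 .z)
 (.s 0x1d5754451054451055754451108a220 0xfdcfdf565591f7d52f7d5 (.s 23 978 0x25 .z)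
 E28 E29) (.s 0x2babaa228885445108575445110ea88a1088 0x33df53f7d5952dd3f7d592df5d (.s 16 1164 0x29 .z)
 E30 E31)))))

end Pool.Agent.Helper91.VD1
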