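import Pool.Agent.Helper91.VZ.Sound
import Pool.Agent.Helper91.VD1.DT

/-! checks -/

namespace Pool.Agent.Helper91.VD1

open Pool.Agent.Helper91.VZ

theorem ok16 : Dc.ok DT B16 := Dc_ok_of_okb (by decide +kernel)

theorem ok17 : Dc.ok DT B17 := Dc_ok_of_okb (by decide +kernel)

theorem ok18 : Dc.ok DT B18 := Dc_ok_of_okb (by decide +kernel)

theorem ok19 : Dc.ok DT B19 := Dc_ok_of_okb (by decide +kernel)

theorem ok20 : Dc.ok DT B20 := Dc_ok_of_okb (by decide +kernel)

theorem ok21 : Dc.ok DT B21 := Dc_ok_of_okb (by decide +kernel)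

theorem ok22 : Dc.ok DT B22 := Dc_ok_of_okb (by decide +kernel)

theorem ok23 : Dc.ok DT B23 := Dc_ok_of_okb (by decide +kernel)

theorem ok24 : Dc.ok DT B24 := Dc_ok_of_okb (by decide +kernel)

theorem ok25 : Dc.ok DT B25 := Dc_ok_of_okb (by decide +kernel)

theorem ok26 : Dc.ok DT B26 := Dc_ok_of_okb (by decide +kernel)

theorem ok27 : Dc.ok DT B27 := Dc_ok_of_okb (by decide +kernel)

theorem ok28 : Dc.ok DT B28 := Dc_ok_of_okb (by decide +kernel)

theorem ok29 : Dc.ok DT B29 := Dc_ok_of_okb (by decide +kernel)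

theorem ok30 : Dc.ok DT B30 := Dc_ok_of_okb (by decide +kernel)

theorem ok31 : Dc.ok DT B31 := Dc_ok_of_okb (by decide +kernel)

theorem okE1 : Dc.ok DT E1 :=
  (Dc_node (by decide +kernel) (Dc_node (by decide +kernel) (Dc_node (by decide +kernel) (Dc_node (by decide +kernel) ok16 ok17) (Dc_node (by decide +kernel) ok18 ok19)) (Dc_node (by decide +kernel) (Dc_node (by decide +kernel) ok20 ok21) (Dc_node (by decide +kernel) ok22 ok23))) (Dc_node (by decide +kernel) (Dc_node (by decide +kernel) (Dc_node (by decide +kernel) ok24 ok25) (Dc_node (by decide +kernel) ok26 ok27)) (Dc_node (by decide +kernel) (Dc_node (by decide +kernel) ok28 ok29) (Dc_node (by decide +kernel) ok30 ok31))))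

end Pool.Agent.Helper91.VD1
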