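import Pool.Agent.Helper91.VZ.Sound
import Pool.Agent.Helper91.VD1.DT

/-! checks -/

namespace Pool.Agent.Helper91.VD1

open Pool.Agent.Helper91.VZ

theorem ok160 : Dc.ok DT B160 := Dc_ok_of_okb (by decide +kernel)

theorem ok161 : Dc.ok DT B161 := Dc_ok_of_okb (by decide +kernel)

theorem ok162 : Dc.ok DT B162 := Dc_ok_of_okb (by decide +kernel)

theorem ok163 : Dc.ok DT B163 := Dc_ok_of_okb (by decide +kernel)

theorem ok164 : Dc.ok DT B164 := Dc_ok_of_okb (by decide +kernel)

theorem ok165 : Dc.ok DT B165 := Dc_ok_of_okb (by decide +kernel)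

theorem ok166 : Dc.ok DT B166 := Dc_ok_of_okb (by decide +kernel)

theorem ok167 : Dc.ok DT B167 := Dc_ok_of_okb (by decide +kernel)

theorem ok168 : Dc.ok DT B168 := Dc_ok_of_okb (by decide +kernel)

theorem ok169 : Dc.ok DT B169 := Dc_ok_of_okb (by decide +kernel)

theorem ok170 : Dc.ok DT B170 := Dc_ok_of_okb (by decide +kernel)

theorem ok171 : Dc.ok DT B171 := Dc_ok_of_okb (by decide +kernel)

theorem ok172 : Dc.ok DT B172 := Dc_ok_of_okb (by decide +kernel)

theorem ok173 : Dc.ok DT B173 := Dc_ok_of_okb (by decide +kernel)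

theorem ok174 : Dc.ok DT B174 := Dc_ok_of_okb (by decide +kernel)

theorem ok175 : Dc.ok DT B175 := Dc_ok_of_okb (by decide +kernel)

theorem okE10 : Dc.ok DT E10 :=
  (Dc_node (by decide +kernel) (Dc_node (by decide +kernel) (Dc_node (by decide +kernel) (Dc_node (by decide +kernel) ok160 ok161) (Dc_node (by decide +kernel) ok162 ok163)) (Dc_node (by decide +kernel) (Dc_node (by decide +kernel) ok164 ok165) (Dc_node (by decide +kernel) ok166 ok167))) (Dc_node (by decide +kernel) (Dc_node (by decide +kernel) (Dc_node (by decide +kernel) ok168 ok169) (Dc_node (by decide +kernel) ok170 ok171)) (Dc_node (by decide +kernel) (Dc_node (by decide +kernel) ok172 ok173) (Dc_node (by decide +kernel) ok174 ok175))))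

end Pool.Agent.Helper91.VD1
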