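import Pool.Agent.Helper91.VZ.Sound
import Pool.Agent.Helper91.VD1.DT

/-! checks -/

namespace Pool.Agent.Helper91.VD1

open Pool.Agent.Helper91.VZ

theorem ok176 : Dc.ok DT B176 := Dc_ok_of_okb (by decide +kernel)

theorem ok177 : Dc.ok DT B177 := Dc_ok_of_okb (by decide +kernel)

theorem ok178 : Dc.ok DT B178 := Dc_ok_of_okb (by decide +kernel)

theorem ok179 : Dc.ok DT B179 := Dc_ok_of_okb (by decide +kernel)

theorem ok180 : Dc.ok DT B180 := Dc_ok_of_okb (by decide +kernel)

theorem ok181 : Dc.ok DT B181 := Dc_ok_of_okb (by decide +kernel)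

theorem ok182 : Dc.ok DT B182 := Dc_ok_of_okb (by decide +kernel)

theorem ok183 : Dc.ok DT B183 := Dc_ok_of_okb (by decide +kernel)

theorem ok184 : Dc.ok DT B184 := Dc_ok_of_okb (by decide +kernel)

theorem ok185 : Dc.ok DT B185 := Dc_ok_of_okb (by decide +kernel)

theorem ok186 : Dc.ok DT B186 := Dc_ok_of_okb (by decide +kernel)

theorem ok187 : Dc.ok DT B187 := Dc_ok_of_okb (by decide +kernel)

theorem ok188 : Dc.ok DT B188 := Dc_ok_of_okb (by decide +kernel)

theorem ok189 : Dc.ok DT B189 := Dc_ok_of_okb (by decide +kernel)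

theorem ok190 : Dc.ok DT B190 := Dc_ok_of_okb (by decide +kernel)

theorem ok191 : Dc.ok DT B191 := Dc_ok_of_okb (by decide +kernel)

theorem okE11 : Dc.ok DT E11 :=
  (Dc_node (by decide +kernel) (Dc_node (by decide +kernel) (Dc_node (by decide +kernel) (Dc_node (by decide +kernel) ok176 ok177) (Dc_node (by decide +kernel) ok178 ok179)) (Dc_node (by decide +kernel) (Dc_node (by decide +kernel) ok180 ok181) (Dc_node (by decide +kernel) ok182 ok183))) (Dc_node (by decide +kernel) (Dc_node (by decide +kernel) (Dc_node (by decide +kernel) ok184 ok185) (Dc_node (by decide +kernel) ok186 ok187)) (Dc_node (by decide +kernel) (Dc_node (by decide +kernel) ok188 ok189) (Dc_node (by decide +kernel) ok190 ok191))))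

end Pool.Agent.Helper91.VD1
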