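import Pool.Agent.Helper91.VZ.Sound
import Pool.Agent.Helper91.VD1.DT

/-! checks -/

namespace Pool.Agent.Helper91.VD1

open Pool.Agent.Helper91.VZ

theorem ok192 : Dc.ok DT B192 := Dc_ok_of_okb (by decide +kernel)

theorem ok193 : Dc.ok DT B193 := Dc_ok_of_okb (by decide +kernel)

theorem ok194 : Dc.ok DT B194 := Dc_ok_of_okb (by decide +kernel)

theorem ok195 : Dc.ok DT B195 := Dc_ok_of_okb (by decide +kernel)

theorem ok196 : Dc.ok DT B196 := Dc_ok_of_okb (by decide +kernel)

theorem ok197 : Dc.ok DT B197 := Dc_ok_of_okb (by decide +kernel)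

theorem ok198 : Dc.ok DT B198 := Dc_ok_of_okb (by decide +kernel)

theorem ok199 : Dc.ok DT B199 := Dc_ok_of_okb (by decide +kernel)

theorem ok200 : Dc.ok DT B200 := Dc_ok_of_okb (by decide +kernel)

theorem ok201 : Dc.ok DT B201 := Dc_ok_of_okb (by decide +kernel)

theorem ok202 : Dc.ok DT B202 := Dc_ok_of_okb (by decide +kernel)

theorem ok203 : Dc.ok DT B203 := Dc_ok_of_okb (by decide +kernel)

theorem ok204 : Dc.ok DT B204 := Dc_ok_of_okb (by decide +kernel)

theorem ok205 : Dc.ok DT B205 := Dc_ok_of_okb (by decide +kernel)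

theorem ok206 : Dc.ok DT B206 := Dc_ok_of_okb (by decide +kernel)

theorem ok207 : Dc.ok DT B207 := Dc_ok_of_okb (by decide +kernel)

theorem okE12 : Dc.ok DT E12 :=
  (Dc_node (by decide +kernel) (Dc_node (by decide +kernel) (Dc_node (by decide +kernel) (Dc_node (by decide +kernel) ok192 ok193) (Dc_node (by decide +kernel) ok194 ok195)) (Dc_node (by decide +kernel) (Dc_node (by decide +kernel) ok196 ok197) (Dc_node (by decide +kernel) ok198 ok199))) (Dc_node (by decide +kernel) (Dc_node (by decide +kernel) (Dc_node (by decide +kernel) ok200 ok201) (Dc_node (by decide +kernel) ok202 ok203)) (Dc_node (by decide +kernel) (Dc_node (by decide +kernel) ok204 ok205) (Dc_node (by decide +kernel) ok206 ok207))))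

end Pool.Agent.Helper91.VD1
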