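import Pool.Agent.Helper91.VZ.Sound
import Pool.Agent.Helper91.VD1.DT

/-! checks -/

namespace Pool.Agent.Helper91.VD1

open Pool.Agent.Helper91.VZ

theorem ok208 : Dc.ok DT B208 := Dc_ok_of_okb (by decide +kernel)

theorem ok209 : Dc.ok DT B209 := Dc_ok_of_okb (by decide +kernel)

theorem ok210 : Dc.ok DT B210 := Dc_ok_of_okb (by decide +kernel)

theorem ok211 : Dc.ok DT B211 := Dc_ok_of_okb (by decide +kernel)

theorem ok212 : Dc.ok DT B212 := Dc_ok_of_okb (by decide +kernel)

theorem ok213 : Dc.ok DT B213 := Dc_ok_of_okb (by decide +kernel)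

theorem ok214 : Dc.ok DT B214 := Dc_ok_of_okb (by decide +kernel)

theorem ok215 : Dc.ok DT B215 := Dc_ok_of_okb (by decide +kernel)

theorem ok216 : Dc.ok DT B216 := Dc_ok_of_okb (by decide +kernel)

theorem ok217 : Dc.ok DT B217 := Dc_ok_of_okb (by decide +kernel)

theorem ok218 : Dc.ok DT B218 := Dc_ok_of_okb (by decide +kernel)

theorem ok219 : Dc.ok DT B219 := Dc_ok_of_okb (by decide +kernel)

theorem ok220 : Dc.ok DT B220 := Dc_ok_of_okb (by decide +kernel)

theorem ok221 : Dc.ok DT B221 := Dc_ok_of_okb (by decide +kernel)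

theorem ok222 : Dc.ok DT B222 := Dc_ok_of_okb (by decide +kernel)

theorem ok223 : Dc.ok DT B223 := Dc_ok_of_okb (by decide +kernel)

theorem okE13 : Dc.ok DT E13 :=
  (Dc_node (by decide +kernel) (Dc_node (by decide +kernel) (Dc_node (by decide +kernel) (Dc_node (by decide +kernel) ok208 ok209) (Dc_node (by decide +kernel) ok210 ok211)) (Dc_node (by decide +kernel) (Dc_node (by decide +kernel) ok212 ok213) (Dc_node (by decide +kernel) ok214 ok215))) (Dc_node (by decide +kernel) (Dc_node (by decide +kernel) (Dc_node (by decide +kernel) ok216 ok217) (Dc_node (by decide +kernel) ok218 ok219)) (Dc_node (by decide +kernel) (Dc_node (by decide +kernel) ok220 ok221) (Dc_node (by decide +kernel) ok222 ok223))))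

end Pool.Agent.Helper91.VD1
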