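import Pool.Agent.Helper91.VZ.Sound
import Pool.Agent.Helper91.VD1.DT

/-! checks -/

namespace Pool.Agent.Helper91.VD1

open Pool.Agent.Helper91.VZ

theorem ok224 : Dc.ok DT B224 := Dc_ok_of_okb (by decide +kernel)

theorem ok225 : Dc.ok DT B225 := Dc_ok_of_okb (by decide +kernel)

theorem ok226 : Dc.ok DT B226 := Dc_ok_of_okb (by decide +kernel)

theorem ok227 : Dc.ok DT B227 := Dc_ok_of_okb (by decide +kernel)

theorem ok228 : Dc.ok DT B228 := Dc_ok_of_okb (by decide +kernel)

theorem ok229 : Dc.ok DT B229 := Dc_ok_of_okb (by decide +kernel)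

theorem ok230 : Dc.ok DT B230 := Dc_ok_of_okb (by decide +kernel)

theorem ok231 : Dc.ok DT B231 := Dc_ok_of_okb (by decide +kernel)

theorem ok232 : Dc.ok DT B232 := Dc_ok_of_okb (by decide +kernel)

theorem ok233 : Dc.ok DT B233 := Dc_ok_of_okb (by decide +kernel)

theorem ok234 : Dc.ok DT B234 := Dc_ok_of_okb (by decide +kernel)

theorem ok235 : Dc.ok DT B235 := Dc_ok_of_okb (by decide +kernel)

theorem ok236 : Dc.ok DT B236 := Dc_ok_of_okb (by decide +kernel)

theorem ok237 : Dc.ok DT B237 := Dc_ok_of_okb (by decide +kernel)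

theorem ok238 : Dc.ok DT B238 := Dc_ok_of_okb (by decide +kernel)

theorem ok239 : Dc.ok DT B239 := Dc_ok_of_okb (by decide +kernel)

theorem okE14 : Dc.ok DT E14 :=
  (Dc_node (by decide +kernel) (Dc_node (by decide +kernel) (Dc_node (by decide +kernel) (Dc_node (by decide +kernel) ok224 ok225) (Dc_node (by decide +kernel) ok226 ok227)) (Dc_node (by decide +kernel) (Dc_node (by decide +kernel) ok228 ok229) (Dc_node (by decide +kernel) ok230 ok231))) (Dc_node (by decide +kernel) (Dc_node (by decide +kernel) (Dc_node (by decide +kernel) ok232 ok233) (Dc_node (by decide +kernel) ok234 ok235)) (Dc_node (by decide +kernel) (Dc_node (by decide +kernel) ok236 ok237) (Dc_node (by decide +kernel) ok238 ok239))))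

end Pool.Agent.Helper91.VD1
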