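import Pool.Agent.Helper91.VZ.Sound
import Pool.Agent.Helper91.VD1.DT

/-! checks -/

namespace Pool.Agent.Helper91.VD1

open Pool.Agent.Helper91.VZ

theorem ok256 : Dc.ok DT B256 := Dc_ok_of_okb (by decide +kernel)

theorem ok257 : Dc.ok DT B257 := Dc_ok_of_okb (by decide +kernel)

theorem ok258 : Dc.ok DT B258 := Dc_ok_of_okb (by decide +kernel)

theorem ok259 : Dc.ok DT B259 := Dc_ok_of_okb (by decide +kernel)

theorem ok260 : Dc.ok DT B260 := Dc_ok_of_okb (by decide +kernel)

theorem ok261 : Dc.ok DT B261 := Dc_ok_of_okb (by decide +kernel)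

theorem ok262 : Dc.ok DT B262 := Dc_ok_of_okb (by decide +kernel)

theorem ok263 : Dc.ok DT B263 := Dc_ok_of_okb (by decide +kernel)

theorem ok264 : Dc.ok DT B264 := Dc_ok_of_okb (by decide +kernel)

theorem ok265 : Dc.ok DT B265 := Dc_ok_of_okb (by decide +kernel)

theorem ok266 : Dc.ok DT B266 := Dc_ok_of_okb (by decide +kernel)

theorem ok267 : Dc.ok DT B267 := Dc_ok_of_okb (by decide +kernel)

theorem ok268 : Dc.ok DT B268 := Dc_ok_of_okb (by decide +kernel)

theorem ok269 : Dc.ok DT B269 := Dc_ok_of_okb (by decide +kernel)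

theorem ok270 : Dc.ok DT B270 := Dc_ok_of_okb (by decide +kernel)

theorem ok271 : Dc.ok DT B271 := Dc_ok_of_okb (by decide +kernel)

theorem okE16 : Dc.ok DT E16 :=
  (Dc_node (by decide +kernel) (Dc_node (by decide +kernel) (Dc_node (by decide +kernel) (Dc_node (by decide +kernel) ok256 ok257) (Dc_node (by decide +kernel) ok258 ok259)) (Dc_node (by decide +kernel) (Dc_node (by decide +kernel) ok260 ok261) (Dc_node (by decide +kernel) ok262 ok263))) (Dc_node (by decide +kernel) (Dc_node (by decide +kernel) (Dc_node (by decide +kernel) ok264 ok265) (Dc_node (by decide +kernel) ok266 ok267)) (Dc_node (by decide +kernel) (Dc_node (by decide +kernel) ok268 ok269) (Dc_node (by decide +kernel) ok270 ok271))))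

end Pool.Agent.Helper91.VD1
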