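import Pool.Agent.Helper91.VZ.Sound
import Pool.Agent.Helper91.VD1.DT

/-! checks -/

namespace Pool.Agent.Helper91.VD1

open Pool.Agent.Helper91.VZ

theorem ok272 : Dc.ok DT B272 := Dc_ok_of_okb (by decide +kernel)

theorem ok273 : Dc.ok DT B273 := Dc_ok_of_okb (by decide +kernel)

theorem ok274 : Dc.ok DT B274 := Dc_ok_of_okb (by decide +kernel)

theorem ok275 : Dc.ok DT B275 := Dc_ok_of_okb (by decide +kernel)

theorem ok276 : Dc.ok DT B276 := Dc_ok_of_okb (by decide +kernel)

theorem ok277 : Dc.ok DT B277 := Dc_ok_of_okb (by decide +kernel)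

theorem ok278 : Dc.ok DT B278 := Dc_ok_of_okb (by decide +kernel)

theorem ok279 : Dc.ok DT B279 := Dc_ok_of_okb (by decide +kernel)

theorem ok280 : Dc.ok DT B280 := Dc_ok_of_okb (by decide +kernel)

theorem ok281 : Dc.ok DT B281 := Dc_ok_of_okb (by decide +kernel)

theorem ok282 : Dc.ok DT B282 := Dc_ok_of_okb (by decide +kernel)

theorem ok283 : Dc.ok DT B283 := Dc_ok_of_okb (by decide +kernel)

theorem ok284 : Dc.ok DT B284 := Dc_ok_of_okb (by decide +kernel)

theorem ok285 : Dc.ok DT B285 := Dc_ok_of_okb (by decide +kernel)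

theorem ok286 : Dc.ok DT B286 := Dc_ok_of_okb (by decide +kernel)

theorem ok287 : Dc.ok DT B287 := Dc_ok_of_okb (by decide +kernel)

theorem okE17 : Dc.ok DT E17 :=
  (Dc_node (by decide +kernel) (Dc_node (by decide +kernel) (Dc_node (by decide +kernel) (Dc_node (by decide +kernel) ok272 ok273) (Dc_node (by decide +kernel) ok274 ok275)) (Dc_node (by decide +kernel) (Dc_node (by decide +kernel) ok276 ok277) (Dc_node (by decide +kernel) ok278 ok279))) (Dc_node (by decide +kernel) (Dc_node (by decide +kernel) (Dc_node (by decide +kernel) ok280 ok281) (Dc_node (by decide +kernel) ok282 ok283)) (Dc_node (by decide +kernel) (Dc_node (by decide +kernel) ok284 ok285) (Dc_node (by decide +kernel) ok286 ok287))))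

end Pool.Agent.Helper91.VD1
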