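import Pool.Agent.Helper91.VZ.Sound
import Pool.Agent.Helper91.VD1.DT

/-! checks -/

namespace Pool.Agent.Helper91.VD1

open Pool.Agent.Helper91.VZ

theorem ok288 : Dc.ok DT B288 := Dc_ok_of_okb (by decide +kernel)

theorem ok289 : Dc.ok DT B289 := Dc_ok_of_okb (by decide +kernel)

theorem ok290 : Dc.ok DT B290 := Dc_ok_of_okb (by decide +kernel)

theorem ok291 : Dc.ok DT B291 := Dc_ok_of_okb (by decide +kernel)

theorem ok292 : Dc.ok DT B292 := Dc_ok_of_okb (by decide +kernel)

theorem ok293 : Dc.ok DT B293 := Dc_ok_of_okb (by decide +kernel)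

theorem ok294 : Dc.ok DT B294 := Dc_ok_of_okb (by decide +kernel)

theorem ok295 : Dc.ok DT B295 := Dc_ok_of_okb (by decide +kernel)

theorem ok296 : Dc.ok DT B296 := Dc_ok_of_okb (by decide +kernel)

theorem ok297 : Dc.ok DT B297 := Dc_ok_of_okb (by decide +kernel)

theorem ok298 : Dc.ok DT B298 := Dc_ok_of_okb (by decide +kernel)

theorem ok299 : Dc.ok DT B299 := Dc_ok_of_okb (by decide +kernel)

theorem ok300 : Dc.ok DT B300 := Dc_ok_of_okb (by decide +kernel)

theorem ok301 : Dc.ok DT B301 := Dc_ok_of_okb (by decide +kernel)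

theorem ok302 : Dc.ok DT B302 := Dc_ok_of_okb (by decide +kernel)

theorem ok303 : Dc.ok DT B303 := Dc_ok_of_okb (by decide +kernel)

theorem okE18 : Dc.ok DT E18 :=
  (Dc_node (by decide +kernel) (Dc_node (by decide +kernel) (Dc_node (by decide +kernel) (Dc_node (by decide +kernel) ok288 ok289) (Dc_node (by decide +kernel) ok290 ok291)) (Dc_node (by decide +kernel) (Dc_node (by decide +kernel) ok292 ok293) (Dc_node (by decide +kernel) ok294 ok295))) (Dc_node (by decide +kernel) (Dc_node (by decide +kernel) (Dc_node (by decide +kernel) ok296 ok297) (Dc_node (by decide +kernel) ok298 ok299)) (Dc_node (by decide +kernel) (Dc_node (by decide +kernel) ok300 ok301) (Dc_node (by decide +kernel) ok302 ok303))))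

end Pool.Agent.Helper91.VD1
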