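import Pool.Agent.Helper91.VZ.Sound
import Pool.Agent.Helper91.VD1.DT

/-! checks -/

namespace Pool.Agent.Helper91.VD1

open Pool.Agent.Helper91.VZ

theorem ok304 : Dc.ok DT B304 := Dc_ok_of_okb (by decide +kernel)

theorem ok305 : Dc.ok DT B305 := Dc_ok_of_okb (by decide +kernel)

theorem ok306 : Dc.ok DT B306 := Dc_ok_of_okb (by decide +kernel)

theorem ok307 : Dc.ok DT B307 := Dc_ok_of_okb (by decide +kernel)

theorem ok308 : Dc.ok DT B308 := Dc_ok_of_okb (by decide +kernel)

theorem ok309 : Dc.ok DT B309 := Dc_ok_of_okb (by decide +kernel)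

theorem ok310 : Dc.ok DT B310 := Dc_ok_of_okb (by decide +kernel)

theorem ok311 : Dc.ok DT B311 := Dc_ok_of_okb (by decide +kernel)

theorem ok312 : Dc.ok DT B312 := Dc_ok_of_okb (by decide +kernel)

theorem ok313 : Dc.ok DT B313 := Dc_ok_of_okb (by decide +kernel)

theorem ok314 : Dc.ok DT B314 := Dc_ok_of_okb (by decide +kernel)

theorem ok315 : Dc.ok DT B315 := Dc_ok_of_okb (by decide +kernel)

theorem ok316 : Dc.ok DT B316 := Dc_ok_of_okb (by decide +kernel)

theorem ok317 : Dc.ok DT B317 := Dc_ok_of_okb (by decide +kernel)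

theorem ok318 : Dc.ok DT B318 := Dc_ok_of_okb (by decide +kernel)

theorem ok319 : Dc.ok DT B319 := Dc_ok_of_okb (by decide +kernel)

theorem okE19 : Dc.ok DT E19 :=
  (Dc_node (by decide +kernel) (Dc_node (by decide +kernel) (Dc_node (by decide +kernel) (Dc_node (by decide +kernel) ok304 ok305) (Dc_node (by decide +kernel) ok306 ok307)) (Dc_node (by decide +kernel) (Dc_node (by decide +kernel) ok308 ok309) (Dc_node (by decide +kernel) ok310 ok311))) (Dc_node (by decide +kernel) (Dc_node (by decide +kernel) (Dc_node (by decide +kernel) ok312 ok313) (Dc_node (by decide +kernel) ok314 ok315)) (Dc_node (by decide +kernel) (Dc_node (by decide +kernel) ok316 ok317) (Dc_node (by decide +kernel) ok318 ok319))))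

end Pool.Agent.Helper91.VD1
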