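import Pool.Agent.Helper91.VZ.Sound
import Pool.Agent.Helper91.VD1.DT

/-! checks -/

namespace Pool.Agent.Helper91.VD1

open Pool.Agent.Helper91.VZ

theorem ok32 : Dc.ok DT B32 := Dc_ok_of_okb (by decide +kernel)

theorem ok33 : Dc.ok DT B33 := Dc_ok_of_okb (by decide +kernel)

theorem ok34 : Dc.ok DT B34 := Dc_ok_of_okb (by decide +kernel)

theorem ok35 : Dc.ok DT B35 := Dc_ok_of_okb (by decide +kernel)

theorem ok36 : Dc.ok DT B36 := Dc_ok_of_okb (by decide +kernel)

theorem ok37 : Dc.ok DT B37 := Dc_ok_of_okb (by decide +kernel)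

theorem ok38 : Dc.ok DT B38 := Dc_ok_of_okb (by decide +kernel)

theorem ok39 : Dc.ok DT B39 := Dc_ok_of_okb (by decide +kernel)

theorem ok40 : Dc.ok DT B40 := Dc_ok_of_okb (by decide +kernel)

theorem ok41 : Dc.ok DT B41 := Dc_ok_of_okb (by decide +kernel)

theorem ok42 : Dc.ok DT B42 := Dc_ok_of_okb (by decide +kernel)

theorem ok43 : Dc.ok DT B43 := Dc_ok_of_okb (by decide +kernel)

theorem ok44 : Dc.ok DT B44 := Dc_ok_of_okb (by decide +kernel)

theorem ok45 : Dc.ok DT B45 := Dc_ok_of_okb (by decide +kernel)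

theorem ok46 : Dc.ok DT B46 := Dc_ok_of_okb (by decide +kernel)

theorem ok47 : Dc.ok DT B47 := Dc_ok_of_okb (by decide +kernel)

theorem okE2 : Dc.ok DT E2 :=
  (Dc_node (by decide +kernel) (Dc_node (by decide +kernel) (Dc_node (by decide +kernel) (Dc_node (by decide +kernel) ok32 ok33) (Dc_node (by decide +kernel) ok34 ok35)) (Dc_node (by decide +kernel) (Dc_node (by decide +kernel) ok36 ok37) (Dc_node (by decide +kernel) ok38 ok39))) (Dc_node (by decide +kernel) (Dc_node (by decide +kernel) (Dc_node (by decide +kernel) ok40 ok41) (Dc_node (by decide +kernel) ok42 ok43)) (Dc_node (by decide +kernel) (Dc_node (by decide +kernel) ok44 ok45) (Dc_node (by decide +kernel) ok46 ok47))))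

end Pool.Agent.Helper91.VD1
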