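import Pool.Agent.Helper91.VZ.Sound
import Pool.Agent.Helper91.VD1.DT

/-! checks -/

namespace Pool.Agent.Helper91.VD1

open Pool.Agent.Helper91.VZ

theorem ok320 : Dc.ok DT B320 := Dc_ok_of_okb (by decide +kernel)

theorem ok321 : Dc.ok DT B321 := Dc_ok_of_okb (by decide +kernel)

theorem ok322 : Dc.ok DT B322 := Dc_ok_of_okb (by decide +kernel)

theorem ok323 : Dc.ok DT B323 := Dc_ok_of_okb (by decide +kernel)

theorem ok324 : Dc.ok DT B324 := Dc_ok_of_okb (by decide +kernel)

theorem ok325 : Dc.ok DT B325 := Dc_ok_of_okb (by decide +kernel)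

theorem ok326 : Dc.ok DT B326 := Dc_ok_of_okb (by decide +kernel)

theorem ok327 : Dc.ok DT B327 := Dc_ok_of_okb (by decide +kernel)

theorem ok328 : Dc.ok DT B328 := Dc_ok_of_okb (by decide +kernel)

theorem ok329 : Dc.ok DT B329 := Dc_ok_of_okb (by decide +kernel)

theorem ok330 : Dc.ok DT B330 := Dc_ok_of_okb (by decide +kernel)

theorem ok331 : Dc.ok DT B331 := Dc_ok_of_okb (by decide +kernel)

theorem ok332 : Dc.ok DT B332 := Dc_ok_of_okb (by decide +kernel)

theorem ok333 : Dc.ok DT B333 := Dc_ok_of_okb (by decide +kernel)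

theorem ok334 : Dc.ok DT B334 := Dc_ok_of_okb (by decide +kernel)

theorem ok335 : Dc.ok DT B335 := Dc_ok_of_okb (by decide +kernel)

theorem okE20 : Dc.ok DT E20 :=
  (Dc_node (by decide +kernel) (Dc_node (by decide +kernel) (Dc_node (by decide +kernel) (Dc_node (by decide +kernel) ok320 ok321) (Dc_node (by decide +kernel) ok322 ok323)) (Dc_node (by decide +kernel) (Dc_node (by decide +kernel) ok324 ok325) (Dc_node (by decide +kernel) ok326 ok327))) (Dc_node (by decide +kernel) (Dc_node (by decide +kernel) (Dc_node (by decide +kernel) ok328 ok329) (Dc_node (by decide +kernel) ok330 ok331)) (Dc_node (by decide +kernel) (Dc_node (by decide +kernel) ok332 ok333) (Dc_node (by decide +kernel) ok334 ok335))))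

end Pool.Agent.Helper91.VD1
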