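import Pool.Agent.Helper91.VZ.Sound
import Pool.Agent.Helper91.VD1.DT

/-! checks -/

namespace Pool.Agent.Helper91.VD1

open Pool.Agent.Helper91.VZ

theorem ok336 : Dc.ok DT B336 := Dc_ok_of_okb (by decide +kernel)

theorem ok337 : Dc.ok DT B337 := Dc_ok_of_okb (by decide +kernel)

theorem ok338 : Dc.ok DT B338 := Dc_ok_of_okb (by decide +kernel)

theorem ok339 : Dc.ok DT B339 := Dc_ok_of_okb (by decide +kernel)

theorem ok340 : Dc.ok DT B340 := Dc_ok_of_okb (by decide +kernel)

theorem ok341 : Dc.ok DT B341 := Dc_ok_of_okb (by decide +kernel)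

theorem ok342 : Dc.ok DT B342 := Dc_ok_of_okb (by decide +kernel)

theorem ok343 : Dc.ok DT B343 := Dc_ok_of_okb (by decide +kernel)

theorem ok344 : Dc.ok DT B344 := Dc_ok_of_okb (by decide +kernel)

theorem ok345 : Dc.ok DT B345 := Dc_ok_of_okb (by decide +kernel)

theorem ok346 : Dc.ok DT B346 := Dc_ok_of_okb (by decide +kernel)

theorem ok347 : Dc.ok DT B347 := Dc_ok_of_okb (by decide +kernel)

theorem ok348 : Dc.ok DT B348 := Dc_ok_of_okb (by decide +kernel)

theorem ok349 : Dc.ok DT B349 := Dc_ok_of_okb (by decide +kernel)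

theorem ok350 : Dc.ok DT B350 := Dc_ok_of_okb (by decide +kernel)

theorem ok351 : Dc.ok DT B351 := Dc_ok_of_okb (by decide +kernel)

theorem okE21 : Dc.ok DT E21 :=
  (Dc_node (by decide +kernel) (Dc_node (by decide +kernel) (Dc_node (by decide +kernel) (Dc_node (by decide +kernel) ok336 ok337) (Dc_node (by decide +kernel) ok338 ok339)) (Dc_node (by decide +kernel) (Dc_node (by decide +kernel) ok340 ok341) (Dc_node (by decide +kernel) ok342 ok343))) (Dc_node (by decide +kernel) (Dc_node (by decide +kernel) (Dc_node (by decide +kernel) ok344 ok345) (Dc_node (by decide +kernel) ok346 ok347)) (Dc_node (by decide +kernel) (Dc_node (by decide +kernel) ok348 ok349) (Dc_node (by decide +kernel) ok350 ok351))))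

end Pool.Agent.Helper91.VD1
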