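import Pool.Agent.Helper91.VZ.Sound
import Pool.Agent.Helper91.VD1.DT

/-! checks -/

namespace Pool.Agent.Helper91.VD1

open Pool.Agent.Helper91.VZ

theorem ok352 : Dc.ok DT B352 := Dc_ok_of_okb (by decide +kernel)

theorem ok353 : Dc.ok DT B353 := Dc_ok_of_okb (by decide +kernel)

theorem ok354 : Dc.ok DT B354 := Dc_ok_of_okb (by decide +kernel)

theorem ok355 : Dc.ok DT B355 := Dc_ok_of_okb (by decide +kernel)

theorem ok356 : Dc.ok DT B356 := Dc_ok_of_okb (by decide +kernel)

theorem ok357 : Dc.ok DT B357 := Dc_ok_of_okb (by decide +kernel)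

theorem ok358 : Dc.ok DT B358 := Dc_ok_of_okb (by decide +kernel)

theorem ok359 : Dc.ok DT B359 := Dc_ok_of_okb (by decide +kernel)

theorem ok360 : Dc.ok DT B360 := Dc_ok_of_okb (by decide +kernel)

theorem ok361 : Dc.ok DT B361 := Dc_ok_of_okb (by decide +kernel)

theorem ok362 : Dc.ok DT B362 := Dc_ok_of_okb (by decide +kernel)

theorem ok363 : Dc.ok DT B363 := Dc_ok_of_okb (by decide +kernel)

theorem ok364 : Dc.ok DT B364 := Dc_ok_of_okb (by decide +kernel)

theorem ok365 : Dc.ok DT B365 := Dc_ok_of_okb (by decide +kernel)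

theorem ok366 : Dc.ok DT B366 := Dc_ok_of_okb (by decide +kernel)

theorem ok367 : Dc.ok DT B367 := Dc_ok_of_okb (by decide +kernel)

theorem okE22 : Dc.ok DT E22 :=
  (Dc_node (by decide +kernel) (Dc_node (by decide +kernel) (Dc_node (by decide +kernel) (Dc_node (by decide +kernel) ok352 ok353) (Dc_node (by decide +kernel) ok354 ok355)) (Dc_node (by decide +kernel) (Dc_node (by decide +kernel) ok356 ok357) (Dc_node (by decide +kernel) ok358 ok359))) (Dc_node (by decide +kernel) (Dc_node (by decide +kernel) (Dc_node (by decide +kernel) ok360 ok361) (Dc_node (by decide +kernel) ok362 ok363)) (Dc_node (by decide +kernel) (Dc_node (by decide +kernel) ok364 ok365) (Dc_node (by decide +kernel) ok366 ok367))))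

end Pool.Agent.Helper91.VD1
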