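import Pool.Agent.Helper91.VZ.Sound
import Pool.Agent.Helper91.VD1.DT

/-! checks -/

namespace Pool.Agent.Helper91.VD1

open Pool.Agent.Helper91.VZ

theorem ok368 : Dc.ok DT B368 := Dc_ok_of_okb (by decide +kernel)

theorem ok369 : Dc.ok DT B369 := Dc_ok_of_okb (by decide +kernel)

theorem ok370 : Dc.ok DT B370 := Dc_ok_of_okb (by decide +kernel)

theorem ok371 : Dc.ok DT B371 := Dc_ok_of_okb (by decide +kernel)

theorem ok372 : Dc.ok DT B372 := Dc_ok_of_okb (by decide +kernel)

theorem ok373 : Dc.ok DT B373 := Dc_ok_of_okb (by decide +kernel)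

theorem ok374 : Dc.ok DT B374 := Dc_ok_of_okb (by decide +kernel)

theorem ok375 : Dc.ok DT B375 := Dc_ok_of_okb (by decide +kernel)

theorem ok376 : Dc.ok DT B376 := Dc_ok_of_okb (by decide +kernel)

theorem ok377 : Dc.ok DT B377 := Dc_ok_of_okb (by decide +kernel)

theorem ok378 : Dc.ok DT B378 := Dc_ok_of_okb (by decide +kernel)

theorem ok379 : Dc.ok DT B379 := Dc_ok_of_okb (by decide +kernel)

theorem ok380 : Dc.ok DT B380 := Dc_ok_of_okb (by decide +kernel)

theorem ok381 : Dc.ok DT B381 := Dc_ok_of_okb (by decide +kernel)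

theorem ok382 : Dc.ok DT B382 := Dc_ok_of_okb (by decide +kernel)

theorem ok383 : Dc.ok DT B383 := Dc_ok_of_okb (by decide +kernel)

theorem okE23 : Dc.ok DT E23 :=
  (Dc_node (by decide +kernel) (Dc_node (by decide +kernel) (Dc_node (by decide +kernel) (Dc_node (by decide +kernel) ok368 ok369) (Dc_node (by decide +kernel) ok370 ok371)) (Dc_node (by decide +kernel) (Dc_node (by decide +kernel) ok372 ok373) (Dc_node (by decide +kernel) ok374 ok375))) (Dc_node (by decide +kernel) (Dc_node (by decide +kernel) (Dc_node (by decide +kernel) ok376 ok377) (Dc_node (by decide +kernel) ok378 ok379)) (Dc_node (by decide +kernel) (Dc_node (by decide +kernel) ok380 ok381) (Dc_node (by decide +kernel) ok382 ok383))))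

end Pool.Agent.Helper91.VD1
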