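import Pool.Agent.Helper91.VZ.Sound
import Pool.Agent.Helper91.VD1.DT

/-! checks -/

namespace Pool.Agent.Helper91.VD1

open Pool.Agent.Helper91.VZ

theorem ok384 : Dc.ok DT B384 := Dc_ok_of_okb (by decide +kernel)

theorem ok385 : Dc.ok DT B385 := Dc_ok_of_okb (by decide +kernel)

theorem ok386 : Dc.ok DT B386 := Dc_ok_of_okb (by decide +kernel)

theorem ok387 : Dc.ok DT B387 := Dc_ok_of_okb (by decide +kernel)

theorem ok388 : Dc.ok DT B388 := Dc_ok_of_okb (by decide +kernel)

theorem ok389 : Dc.ok DT B389 := Dc_ok_of_okb (by decide +kernel)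

theorem ok390 : Dc.ok DT B390 := Dc_ok_of_okb (by decide +kernel)

theorem ok391 : Dc.ok DT B391 := Dc_ok_of_okb (by decide +kernel)

theorem ok392 : Dc.ok DT B392 := Dc_ok_of_okb (by decide +kernel)

theorem ok393 : Dc.ok DT B393 := Dc_ok_of_okb (by decide +kernel)

theorem ok394 : Dc.ok DT B394 := Dc_ok_of_okb (by decide +kernel)

theorem ok395 : Dc.ok DT B395 := Dc_ok_of_okb (by decide +kernel)

theorem ok396 : Dc.ok DT B396 := Dc_ok_of_okb (by decide +kernel)

theorem ok397 : Dc.ok DT B397 := Dc_ok_of_okb (by decide +kernel)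

theorem ok398 : Dc.ok DT B398 := Dc_ok_of_okb (by decide +kernel)

theorem ok399 : Dc.ok DT B399 := Dc_ok_of_okb (by decide +kernel)

theorem okE24 : Dc.ok DT E24 :=
  (Dc_node (by decide +kernel) (Dc_node (by decide +kernel) (Dc_node (by decide +kernel) (Dc_node (by decide +kernel) ok384 ok385) (Dc_node (by decide +kernel) ok386 ok387)) (Dc_node (by decide +kernel) (Dc_node (by decide +kernel) ok388 ok389) (Dc_node (by decide +kernel) ok390 ok391))) (Dc_node (by decide +kernel) (Dc_node (by decide +kernel) (Dc_node (by decide +kernel) ok392 ok393) (Dc_node (by decide +kernel) ok394 ok395)) (Dc_node (by decide +kernel) (Dc_node (by decide +kernel) ok396 ok397) (Dc_node (by decide +kernel) ok398 ok399))))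

end Pool.Agent.Helper91.VD1
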