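import Pool.Agent.Helper91.VZ.Sound
import Pool.Agent.Helper91.VD1.DT

/-! checks -/

namespace Pool.Agent.Helper91.VD1

open Pool.Agent.Helper91.VZ

theorem ok400 : Dc.ok DT B400 := Dc_ok_of_okb (by decide +kernel)

theorem ok401 : Dc.ok DT B401 := Dc_ok_of_okb (by decide +kernel)

theorem ok402 : Dc.ok DT B402 := Dc_ok_of_okb (by decide +kernel)

theorem ok403 : Dc.ok DT B403 := Dc_ok_of_okb (by decide +kernel)

theorem ok404 : Dc.ok DT B404 := Dc_ok_of_okb (by decide +kernel)

theorem ok405 : Dc.ok DT B405 := Dc_ok_of_okb (by decide +kernel)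

theorem ok406 : Dc.ok DT B406 := Dc_ok_of_okb (by decide +kernel)

theorem ok407 : Dc.ok DT B407 := Dc_ok_of_okb (by decide +kernel)

theorem ok408 : Dc.ok DT B408 := Dc_ok_of_okb (by decide +kernel)

theorem ok409 : Dc.ok DT B409 := Dc_ok_of_okb (by decide +kernel)

theorem ok410 : Dc.ok DT B410 := Dc_ok_of_okb (by decide +kernel)

theorem ok411 : Dc.ok DT B411 := Dc_ok_of_okb (by decide +kernel)

theorem ok412 : Dc.ok DT B412 := Dc_ok_of_okb (by decide +kernel)

theorem ok413 : Dc.ok DT B413 := Dc_ok_of_okb (by decide +kernel)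

theorem ok414 : Dc.ok DT B414 := Dc_ok_of_okb (by decide +kernel)

theorem ok415 : Dc.ok DT B415 := Dc_ok_of_okb (by decide +kernel)

theorem okE25 : Dc.ok DT E25 :=
  (Dc_node (by decide +kernel) (Dc_node (by decide +kernel) (Dc_node (by decide +kernel) (Dc_node (by decide +kernel) ok400 ok401) (Dc_node (by decide +kernel) ok402 ok403)) (Dc_node (by decide +kernel) (Dc_node (by decide +kernel) ok404 ok405) (Dc_node (by decide +kernel) ok406 ok407))) (Dc_node (by decide +kernel) (Dc_node (by decide +kernel) (Dc_node (by decide +kernel) ok408 ok409) (Dc_node (by decide +kernel) ok410 ok411)) (Dc_node (by decide +kernel) (Dc_node (by decide +kernel) ok412 ok413) (Dc_node (by decide +kernel) ok414 ok415))))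

end Pool.Agent.Helper91.VD1
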