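import Pool.Agent.Helper91.VZ.Sound
import Pool.Agent.Helper91.VD1.DT

/-! checks -/

namespace Pool.Agent.Helper91.VD1

open Pool.Agent.Helper91.VZ

theorem ok416 : Dc.ok DT B416 := Dc_ok_of_okb (by decide +kernel)

theorem ok417 : Dc.ok DT B417 := Dc_ok_of_okb (by decide +kernel)

theorem ok418 : Dc.ok DT B418 := Dc_ok_of_okb (by decide +kernel)

theorem ok419 : Dc.ok DT B419 := Dc_ok_of_okb (by decide +kernel)

theorem ok420 : Dc.ok DT B420 := Dc_ok_of_okb (by decide +kernel)

theorem ok421 : Dc.ok DT B421 := Dc_ok_of_okb (by decide +kernel)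

theorem ok422 : Dc.ok DT B422 := Dc_ok_of_okb (by decide +kernel)

theorem ok423 : Dc.ok DT B423 := Dc_ok_of_okb (by decide +kernel)

theorem ok424 : Dc.ok DT B424 := Dc_ok_of_okb (by decide +kernel)

theorem ok425 : Dc.ok DT B425 := Dc_ok_of_okb (by decide +kernel)

theorem ok426 : Dc.ok DT B426 := Dc_ok_of_okb (by decide +kernel)

theorem ok427 : Dc.ok DT B427 := Dc_ok_of_okb (by decide +kernel)

theorem ok428 : Dc.ok DT B428 := Dc_ok_of_okb (by decide +kernel)

theorem ok429 : Dc.ok DT B429 := Dc_ok_of_okb (by decide +kernel)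

theorem ok430 : Dc.ok DT B430 := Dc_ok_of_okb (by decide +kernel)

theorem ok431 : Dc.ok DT B431 := Dc_ok_of_okb (by decide +kernel)

theorem okE26 : Dc.ok DT E26 :=
  (Dc_node (by decide +kernel) (Dc_node (by decide +kernel) (Dc_node (by decide +kernel) (Dc_node (by decide +kernel) ok416 ok417) (Dc_node (by decide +kernel) ok418 ok419)) (Dc_node (by decide +kernel) (Dc_node (by decide +kernel) ok420 ok421) (Dc_node (by decide +kernel) ok422 ok423))) (Dc_node (by decide +kernel) (Dc_node (by decide +kernel) (Dc_node (by decide +kernel) ok424 ok425) (Dc_node (by decide +kernel) ok426 ok427)) (Dc_node (by decide +kernel) (Dc_node (by decide +kernel) ok428 ok429) (Dc_node (by decide +kernel) ok430 ok431))))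

end Pool.Agent.Helper91.VD1
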