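import Pool.Agent.Helper91.VZ.Sound
import Pool.Agent.Helper91.VD1.DT

/-! checks -/

namespace Pool.Agent.Helper91.VD1

open Pool.Agent.Helper91.VZ

theorem ok432 : Dc.ok DT B432 := Dc_ok_of_okb (by decide +kernel)

theorem ok433 : Dc.ok DT B433 := Dc_ok_of_okb (by decide +kernel)

theorem ok434 : Dc.ok DT B434 := Dc_ok_of_okb (by decide +kernel)

theorem ok435 : Dc.ok DT B435 := Dc_ok_of_okb (by decide +kernel)

theorem ok436 : Dc.ok DT B436 := Dc_ok_of_okb (by decide +kernel)

theorem ok437 : Dc.ok DT B437 := Dc_ok_of_okb (by decide +kernel)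

theorem ok438 : Dc.ok DT B438 := Dc_ok_of_okb (by decide +kernel)

theorem ok439 : Dc.ok DT B439 := Dc_ok_of_okb (by decide +kernel)

theorem ok440 : Dc.ok DT B440 := Dc_ok_of_okb (by decide +kernel)

theorem ok441 : Dc.ok DT B441 := Dc_ok_of_okb (by decide +kernel)

theorem ok442 : Dc.ok DT B442 := Dc_ok_of_okb (by decide +kernel)

theorem ok443 : Dc.ok DT B443 := Dc_ok_of_okb (by decide +kernel)

theorem ok444 : Dc.ok DT B444 := Dc_ok_of_okb (by decide +kernel)

theorem ok445 : Dc.ok DT B445 := Dc_ok_of_okb (by decide +kernel)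

theorem ok446 : Dc.ok DT B446 := Dc_ok_of_okb (by decide +kernel)

theorem ok447 : Dc.ok DT B447 := Dc_ok_of_okb (by decide +kernel)

theorem okE27 : Dc.ok DT E27 :=
  (Dc_node (by decide +kernel) (Dc_node (by decide +kernel) (Dc_node (by decide +kernel) (Dc_node (by decide +kernel) ok432 ok433) (Dc_node (by decide +kernel) ok434 ok435)) (Dc_node (by decide +kernel) (Dc_node (by decide +kernel) ok436 ok437) (Dc_node (by decide +kernel) ok438 ok439))) (Dc_node (by decide +kernel) (Dc_node (by decide +kernel) (Dc_node (by decide +kernel) ok440 ok441) (Dc_node (by decide +kernel) ok442 ok443)) (Dc_node (by decide +kernel) (Dc_node (by decide +kernel) ok444 ok445) (Dc_node (by decide +kernel) ok446 ok447))))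

end Pool.Agent.Helper91.VD1
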