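import Pool.Agent.Helper91.VZ.Sound
import Pool.Agent.Helper91.VD1.DT

/-! checks -/

namespace Pool.Agent.Helper91.VD1

open Pool.Agent.Helper91.VZ

theorem ok448 : Dc.ok DT B448 := Dc_ok_of_okb (by decide +kernel)

theorem ok449 : Dc.ok DT B449 := Dc_ok_of_okb (by decide +kernel)

theorem ok450 : Dc.ok DT B450 := Dc_ok_of_okb (by decide +kernel)

theorem ok451 : Dc.ok DT B451 := Dc_ok_of_okb (by decide +kernel)

theorem ok452 : Dc.ok DT B452 := Dc_ok_of_okb (by decide +kernel)

theorem ok453 : Dc.ok DT B453 := Dc_ok_of_okb (by decide +kernel)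

theorem ok454 : Dc.ok DT B454 := Dc_ok_of_okb (by decide +kernel)

theorem ok455 : Dc.ok DT B455 := Dc_ok_of_okb (by decide +kernel)

theorem ok456 : Dc.ok DT B456 := Dc_ok_of_okb (by decide +kernel)

theorem ok457 : Dc.ok DT B457 := Dc_ok_of_okb (by decide +kernel)

theorem ok458 : Dc.ok DT B458 := Dc_ok_of_okb (by decide +kernel)

theorem ok459 : Dc.ok DT B459 := Dc_ok_of_okb (by decide +kernel)

theorem ok460 : Dc.ok DT B460 := Dc_ok_of_okb (by decide +kernel)

theorem ok461 : Dc.ok DT B461 := Dc_ok_of_okb (by decide +kernel)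

theorem ok462 : Dc.ok DT B462 := Dc_ok_of_okb (by decide +kernel)

theorem ok463 : Dc.ok DT B463 := Dc_ok_of_okb (by decide +kernel)

theorem okE28 : Dc.ok DT E28 :=
  (Dc_node (by decide +kernel) (Dc_node (by decide +kernel) (Dc_node (by decide +kernel) (Dc_node (by decide +kernel) ok448 ok449) (Dc_node (by decide +kernel) ok450 ok451)) (Dc_node (by decide +kernel) (Dc_node (by decide +kernel) ok452 ok453) (Dc_node (by decide +kernel) ok454 ok455))) (Dc_node (by decide +kernel) (Dc_node (by decide +kernel) (Dc_node (by decide +kernel) ok456 ok457) (Dc_node (by decide +kernel) ok458 ok459)) (Dc_node (by decide +kernel) (Dc_node (by decide +kernel) ok460 ok461) (Dc_node (by decide +kernel) ok462 ok463))))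

end Pool.Agent.Helper91.VD1
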