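import Pool.Agent.Helper91.VZ.Sound
import Pool.Agent.Helper91.VD1.DT

/-! checks -/

namespace Pool.Agent.Helper91.VD1

open Pool.Agent.Helper91.VZ

theorem ok464 : Dc.ok DT B464 := Dc_ok_of_okb (by decide +kernel)

theorem ok465 : Dc.ok DT B465 := Dc_ok_of_okb (by decide +kernel)

theorem ok466 : Dc.ok DT B466 := Dc_ok_of_okb (by decide +kernel)

theorem ok467 : Dc.ok DT B467 := Dc_ok_of_okb (by decide +kernel)

theorem ok468 : Dc.ok DT B468 := Dc_ok_of_okb (by decide +kernel)

theorem ok469 : Dc.ok DT B469 := Dc_ok_of_okb (by decide +kernel)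

theorem ok470 : Dc.ok DT B470 := Dc_ok_of_okb (by decide +kernel)

theorem ok471 : Dc.ok DT B471 := Dc_ok_of_okb (by decide +kernel)

theorem ok472 : Dc.ok DT B472 := Dc_ok_of_okb (by decide +kernel)

theorem ok473 : Dc.ok DT B473 := Dc_ok_of_okb (by decide +kernel)

theorem ok474 : Dc.ok DT B474 := Dc_ok_of_okb (by decide +kernel)

theorem ok475 : Dc.ok DT B475 := Dc_ok_of_okb (by decide +kernel)

theorem ok476 : Dc.ok DT B476 := Dc_ok_of_okb (by decide +kernel)

theorem ok477 : Dc.ok DT B477 := Dc_ok_of_okb (by decide +kernel)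

theorem ok478 : Dc.ok DT B478 := Dc_ok_of_okb (by decide +kernel)

theorem ok479 : Dc.ok DT B479 := Dc_ok_of_okb (by decide +kernel)

theorem okE29 : Dc.ok DT E29 :=
  (Dc_node (by decide +kernel) (Dc_node (by decide +kernel) (Dc_node (by decide +kernel) (Dc_node (by decide +kernel) ok464 ok465) (Dc_node (by decide +kernel) ok466 ok467)) (Dc_node (by decide +kernel) (Dc_node (by decide +kernel) ok468 ok469) (Dc_node (by decide +kernel) ok470 ok471))) (Dc_node (by decide +kernel) (Dc_node (by decide +kernel) (Dc_node (by decide +kernel) ok472 ok473) (Dc_node (by decide +kernel) ok474 ok475)) (Dc_node (by decide +kernel) (Dc_node (by decide +kernel) ok476 ok477) (Dc_node (by decide +kernel) ok478 ok479))))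

end Pool.Agent.Helper91.VD1
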