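import Pool.Agent.Helper91.VZ.Sound
import Pool.Agent.Helper91.VD1.DT

/-! checks -/

namespace Pool.Agent.Helper91.VD1

open Pool.Agent.Helper91.VZ

theorem ok48 : Dc.ok DT B48 := Dc_ok_of_okb (by decide +kernel)

theorem ok49 : Dc.ok DT B49 := Dc_ok_of_okb (by decide +kernel)

theorem ok50 : Dc.ok DT B50 := Dc_ok_of_okb (by decide +kernel)

theorem ok51 : Dc.ok DT B51 := Dc_ok_of_okb (by decide +kernel)

theorem ok52 : Dc.ok DT B52 := Dc_ok_of_okb (by decide +kernel)

theorem ok53 : Dc.ok DT B53 := Dc_ok_of_okb (by decide +kernel)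

theorem ok54 : Dc.ok DT B54 := Dc_ok_of_okb (by decide +kernel)

theorem ok55 : Dc.ok DT B55 := Dc_ok_of_okb (by decide +kernel)

theorem ok56 : Dc.ok DT B56 := Dc_ok_of_okb (by decide +kernel)

theorem ok57 : Dc.ok DT B57 := Dc_ok_of_okb (by decide +kernel)

theorem ok58 : Dc.ok DT B58 := Dc_ok_of_okb (by decide +kernel)

theorem ok59 : Dc.ok DT B59 := Dc_ok_of_okb (by decide +kernel)

theorem ok60 : Dc.ok DT B60 := Dc_ok_of_okb (by decide +kernel)

theorem ok61 : Dc.ok DT B61 := Dc_ok_of_okb (by decide +kernel)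

theorem ok62 : Dc.ok DT B62 := Dc_ok_of_okb (by decide +kernel)

theorem ok63 : Dc.ok DT B63 := Dc_ok_of_okb (by decide +kernel)

theorem okE3 : Dc.ok DT E3 :=
  (Dc_node (by decide +kernel) (Dc_node (by decide +kernel) (Dc_node (by decide +kernel) (Dc_node (by decide +kernel) ok48 ok49) (Dc_node (by decide +kernel) ok50 ok51)) (Dc_node (by decide +kernel) (Dc_node (by decide +kernel) ok52 ok53) (Dc_node (by decide +kernel) ok54 ok55))) (Dc_node (by decide +kernel) (Dc_node (by decide +kernel) (Dc_node (by decide +kernel) ok56 ok57) (Dc_node (by decide +kernel) ok58 ok59)) (Dc_node (by decide +kernel) (Dc_node (by decide +kernel) ok60 ok61) (Dc_node (by decide +kernel) ok62 ok63))))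

end Pool.Agent.Helper91.VD1
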