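import Pool.Agent.Helper91.VZ.Sound
import Pool.Agent.Helper91.VD1.DT

/-! checks -/

namespace Pool.Agent.Helper91.VD1

open Pool.Agent.Helper91.VZ

theorem ok496 : Dc.ok DT B496 := Dc_ok_of_okb (by decide +kernel)

theorem ok497 : Dc.ok DT B497 := Dc_ok_of_okb (by decide +kernel)

theorem ok498 : Dc.ok DT B498 := Dc_ok_of_okb (by decide +kernel)

theorem ok499 : Dc.ok DT B499 := Dc_ok_of_okb (by decide +kernel)

theorem ok500 : Dc.ok DT B500 := Dc_ok_of_okb (by decide +kernel)

theorem ok501 : Dc.ok DT B501 := Dc_ok_of_okb (by decide +kernel)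

theorem ok502 : Dc.ok DT B502 := Dc_ok_of_okb (by decide +kernel)

theorem ok503 : Dc.ok DT B503 := Dc_ok_of_okb (by decide +kernel)

theorem ok504 : Dc.ok DT B504 := Dc_ok_of_okb (by decide +kernel)

theorem ok505 : Dc.ok DT B505 := Dc_ok_of_okb (by decide +kernel)

theorem ok506 : Dc.ok DT B506 := Dc_ok_of_okb (by decide +kernel)

theorem ok507 : Dc.ok DT B507 := Dc_ok_of_okb (by decide +kernel)

theorem ok508 : Dc.ok DT B508 := Dc_ok_of_okb (by decide +kernel)

theorem ok509 : Dc.ok DT B509 := Dc_ok_of_okb (by decide +kernel)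

theorem ok510 : Dc.ok DT B510 := Dc_ok_of_okb (by decide +kernel)

theorem ok511 : Dc.ok DT B511 := Dc_ok_of_okb (by decide +kernel)

theorem okE31 : Dc.ok DT E31 :=
  (Dc_node (by decide +kernel) (Dc_node (by decide +kernel) (Dc_node (by decide +kernel) (Dc_node (by decide +kernel) ok496 ok497) (Dc_node (by decide +kernel) ok498 ok499)) (Dc_node (by decide +kernel) (Dc_node (by decide +kernel) ok500 ok501) (Dc_node (by decide +kernel) ok502 ok503))) (Dc_node (by decide +kernel) (Dc_node (by decide +kernel) (Dc_node (by decide +kernel) ok504 ok505) (Dc_node (by decide +kernel) ok506 ok507)) (Dc_node (by decide +kernel) (Dc_node (by decide +kernel) ok508 ok509) (Dc_node (by decide +kernel) ok510 ok511))))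

end Pool.Agent.Helper91.VD1
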