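import Pool.Agent.Helper91.VZ.Sound
import Pool.Agent.Helper91.VD1.DT

/-! checks -/

namespace Pool.Agent.Helper91.VD1

open Pool.Agent.Helper91.VZ

theorem ok64 : Dc.ok DT B64 := Dc_ok_of_okb (by decide +kernel)

theorem ok65 : Dc.ok DT B65 := Dc_ok_of_okb (by decide +kernel)

theorem ok66 : Dc.ok DT B66 := Dc_ok_of_okb (by decide +kernel)

theorem ok67 : Dc.ok DT B67 := Dc_ok_of_okb (by decide +kernel)

theorem ok68 : Dc.ok DT B68 := Dc_ok_of_okb (by decide +kernel)

theorem ok69 : Dc.ok DT B69 := Dc_ok_of_okb (by decide +kernel)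

theorem ok70 : Dc.ok DT B70 := Dc_ok_of_okb (by decide +kernel)

theorem ok71 : Dc.ok DT B71 := Dc_ok_of_okb (by decide +kernel)

theorem ok72 : Dc.ok DT B72 := Dc_ok_of_okb (by decide +kernel)

theorem ok73 : Dc.ok DT B73 := Dc_ok_of_okb (by decide +kernel)

theorem ok74 : Dc.ok DT B74 := Dc_ok_of_okb (by decide +kernel)

theorem ok75 : Dc.ok DT B75 := Dc_ok_of_okb (by decide +kernel)

theorem ok76 : Dc.ok DT B76 := Dc_ok_of_okb (by decide +kernel)

theorem ok77 : Dc.ok DT B77 := Dc_ok_of_okb (by decide +kernel)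

theorem ok78 : Dc.ok DT B78 := Dc_ok_of_okb (by decide +kernel)

theorem ok79 : Dc.ok DT B79 := Dc_ok_of_okb (by decide +kernel)

theorem okE4 : Dc.ok DT E4 :=
  (Dc_node (by decide +kernel) (Dc_node (by decide +kernel) (Dc_node (by decide +kernel) (Dc_node (by decide +kernel) ok64 ok65) (Dc_node (by decide +kernel) ok66 ok67)) (Dc_node (by decide +kernel) (Dc_node (by decide +kernel) ok68 ok69) (Dc_node (by decide +kernel) ok70 ok71))) (Dc_node (by decide +kernel) (Dc_node (by decide +kernel) (Dc_node (by decide +kernel) ok72 ok73) (Dc_node (by decide +kernel) ok74 ok75)) (Dc_node (by decide +kernel) (Dc_node (by decide +kernel) ok76 ok77) (Dc_node (by decide +kernel) ok78 ok79))))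

end Pool.Agent.Helper91.VD1
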