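import Pool.Agent.Helper91.VZ.Sound
import Pool.Agent.Helper91.VD1.DT

/-! checks -/

namespace Pool.Agent.Helper91.VD1

open Pool.Agent.Helper91.VZ

theorem ok80 : Dc.ok DT B80 := Dc_ok_of_okb (by decide +kernel)

theorem ok81 : Dc.ok DT B81 := Dc_ok_of_okb (by decide +kernel)

theorem ok82 : Dc.ok DT B82 := Dc_ok_of_okb (by decide +kernel)

theorem ok83 : Dc.ok DT B83 := Dc_ok_of_okb (by decide +kernel)

theorem ok84 : Dc.ok DT B84 := Dc_ok_of_okb (by decide +kernel)

theorem ok85 : Dc.ok DT B85 := Dc_ok_of_okb (by decide +kernel)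

theorem ok86 : Dc.ok DT B86 := Dc_ok_of_okb (by decide +kernel)

theorem ok87 : Dc.ok DT B87 := Dc_ok_of_okb (by decide +kernel)

theorem ok88 : Dc.ok DT B88 := Dc_ok_of_okb (by decide +kernel)

theorem ok89 : Dc.ok DT B89 := Dc_ok_of_okb (by decide +kernel)

theorem ok90 : Dc.ok DT B90 := Dc_ok_of_okb (by decide +kernel)

theorem ok91 : Dc.ok DT B91 := Dc_ok_of_okb (by decide +kernel)

theorem ok92 : Dc.ok DT B92 := Dc_ok_of_okb (by decide +kernel)

theorem ok93 : Dc.ok DT B93 := Dc_ok_of_okb (by decide +kernel)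

theorem ok94 : Dc.ok DT B94 := Dc_ok_of_okb (by decide +kernel)

theorem ok95 : Dc.ok DT B95 := Dc_ok_of_okb (by decide +kernel)

theorem okE5 : Dc.ok DT E5 :=
  (Dc_node (by decide +kernel) (Dc_node (by decide +kernel) (Dc_node (by decide +kernel) (Dc_node (by decide +kernel) ok80 ok81) (Dc_node (by decide +kernel) ok82 ok83)) (Dc_node (by decide +kernel) (Dc_node (by decide +kernel) ok84 ok85) (Dc_node (by decide +kernel) ok86 ok87))) (Dc_node (by decide +kernel) (Dc_node (by decide +kernel) (Dc_node (by decide +kernel) ok88 ok89) (Dc_node (by decide +kernel) ok90 ok91)) (Dc_node (by decide +kernel) (Dc_node (by decide +kernel) ok92 ok93) (Dc_node (by decide +kernel) ok94 ok95))))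

end Pool.Agent.Helper91.VD1
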