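import Pool.Agent.Helper91.VZ.Sound
import Pool.Agent.Helper91.VD1.DT

/-! checks -/

namespace Pool.Agent.Helper91.VD1

open Pool.Agent.Helper91.VZ

theorem ok96 : Dc.ok DT B96 := Dc_ok_of_okb (by decide +kernel)

theorem ok97 : Dc.ok DT B97 := Dc_ok_of_okb (by decide +kernel)

theorem ok98 : Dc.ok DT B98 := Dc_ok_of_okb (by decide +kernel)

theorem ok99 : Dc.ok DT B99 := Dc_ok_of_okb (by decide +kernel)

theorem ok100 : Dc.ok DT B100 := Dc_ok_of_okb (by decide +kernel)

theorem ok101 : Dc.ok DT B101 := Dc_ok_of_okb (by decide +kernel)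

theorem ok102 : Dc.ok DT B102 := Dc_ok_of_okb (by decide +kernel)

theorem ok103 : Dc.ok DT B103 := Dc_ok_of_okb (by decide +kernel)

theorem ok104 : Dc.ok DT B104 := Dc_ok_of_okb (by decide +kernel)

theorem ok105 : Dc.ok DT B105 := Dc_ok_of_okb (by decide +kernel)

theorem ok106 : Dc.ok DT B106 := Dc_ok_of_okb (by decide +kernel)

theorem ok107 : Dc.ok DT B107 := Dc_ok_of_okb (by decide +kernel)

theorem ok108 : Dc.ok DT B108 := Dc_ok_of_okb (by decide +kernel)

theorem ok109 : Dc.ok DT B109 := Dc_ok_of_okb (by decide +kernel)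

theorem ok110 : Dc.ok DT B110 := Dc_ok_of_okb (by decide +kernel)

theorem ok111 : Dc.ok DT B111 := Dc_ok_of_okb (by decide +kernel)

theorem okE6 : Dc.ok DT E6 :=
  (Dc_node (by decide +kernel) (Dc_node (by decide +kernel) (Dc_node (by decide +kernel) (Dc_node (by decide +kernel) ok96 ok97) (Dc_node (by decide +kernel) ok98 ok99)) (Dc_node (by decide +kernel) (Dc_node (by decide +kernel) ok100 ok101) (Dc_node (by decide +kernel) ok102 ok103))) (Dc_node (by decide +kernel) (Dc_node (by decide +kernel) (Dc_node (by decide +kernel) ok104 ok105) (Dc_node (by decide +kernel) ok106 ok107)) (Dc_node (by decide +kernel) (Dc_node (by decide +kernel) ok108 ok109) (Dc_node (by decide +kernel) ok110 ok111))))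

end Pool.Agent.Helper91.VD1
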