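import Pool.Agent.Helper91.VZ.Sound
import Pool.Agent.Helper91.VD1.DT

/-! checks -/

namespace Pool.Agent.Helper91.VD1

open Pool.Agent.Helper91.VZ

theorem ok112 : Dc.ok DT B112 := Dc_ok_of_okb (by decide +kernel)

theorem ok113 : Dc.ok DT B113 := Dc_ok_of_okb (by decide +kernel)

theorem ok114 : Dc.ok DT B114 := Dc_ok_of_okb (by decide +kernel)

theorem ok115 : Dc.ok DT B115 := Dc_ok_of_okb (by decide +kernel)

theorem ok116 : Dc.ok DT B116 := Dc_ok_of_okb (by decide +kernel)

theorem ok117 : Dc.ok DT B117 := Dc_ok_of_okb (by decide +kernel)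

theorem ok118 : Dc.ok DT B118 := Dc_ok_of_okb (by decide +kernel)

theorem ok119 : Dc.ok DT B119 := Dc_ok_of_okb (by decide +kernel)

theorem ok120 : Dc.ok DT B120 := Dc_ok_of_okb (by decide +kernel)

theorem ok121 : Dc.ok DT B121 := Dc_ok_of_okb (by decide +kernel)

theorem ok122 : Dc.ok DT B122 := Dc_ok_of_okb (by decide +kernel)

theorem ok123 : Dc.ok DT B123 := Dc_ok_of_okb (by decide +kernel)

theorem ok124 : Dc.ok DT B124 := Dc_ok_of_okb (by decide +kernel)

theorem ok125 : Dc.ok DT B125 := Dc_ok_of_okb (by decide +kernel)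

theorem ok126 : Dc.ok DT B126 := Dc_ok_of_okb (by decide +kernel)

theorem ok127 : Dc.ok DT B127 := Dc_ok_of_okb (by decide +kernel)

theorem okE7 : Dc.ok DT E7 :=
  (Dc_node (by decide +kernel) (Dc_node (by decide +kernel) (Dc_node (by decide +kernel) (Dc_node (by decide +kernel) ok112 ok113) (Dc_node (by decide +kernel) ok114 ok115)) (Dc_node (by decide +kernel) (Dc_node (by decide +kernel) ok116 ok117) (Dc_node (by decide +kernel) ok118 ok119))) (Dc_node (by decide +kernel) (Dc_node (by decide +kernel) (Dc_node (by decide +kernel) ok120 ok121) (Dc_node (by decide +kernel) ok122 ok123)) (Dc_node (by decide +kernel) (Dc_node (by decide +kernel) ok124 ok125) (Dc_node (by decide +kernel) ok126 ok127))))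

end Pool.Agent.Helper91.VD1
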