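import Pool.Agent.Helper91.VZ.Sound
import Pool.Agent.Helper91.VD1.DT

/-! checks -/

namespace Pool.Agent.Helper91.VD1

open Pool.Agent.Helper91.VZ

theorem ok128 : Dc.ok DT B128 := Dc_ok_of_okb (by decide +kernel)

theorem ok129 : Dc.ok DT B129 := Dc_ok_of_okb (by decide +kernel)

theorem ok130 : Dc.ok DT B130 := Dc_ok_of_okb (by decide +kernel)

theorem ok131 : Dc.ok DT B131 := Dc_ok_of_okb (by decide +kernel)

theorem ok132 : Dc.ok DT B132 := Dc_ok_of_okb (by decide +kernel)

theorem ok133 : Dc.ok DT B133 := Dc_ok_of_okb (by decide +kernel)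

theorem ok134 : Dc.ok DT B134 := Dc_ok_of_okb (by decide +kernel)

theorem ok135 : Dc.ok DT B135 := Dc_ok_of_okb (by decide +kernel)

theorem ok136 : Dc.ok DT B136 := Dc_ok_of_okb (by decide +kernel)

theorem ok137 : Dc.ok DT B137 := Dc_ok_of_okb (by decide +kernel)

theorem ok138 : Dc.ok DT B138 := Dc_ok_of_okb (by decide +kernel)

theorem ok139 : Dc.ok DT B139 := Dc_ok_of_okb (by decide +kernel)

theorem ok140 : Dc.ok DT B140 := Dc_ok_of_okb (by decide +kernel)

theorem ok141 : Dc.ok DT B141 := Dc_ok_of_okb (by decide +kernel)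

theorem ok142 : Dc.ok DT B142 := Dc_ok_of_okb (by decide +kernel)

theorem ok143 : Dc.ok DT B143 := Dc_ok_of_okb (by decide +kernel)

theorem okE8 : Dc.ok DT E8 :=
  (Dc_node (by decide +kernel) (Dc_node (by decide +kernel) (Dc_node (by decide +kernel) (Dc_node (by decide +kernel) ok128 ok129) (Dc_node (by decide +kernel) ok130 ok131)) (Dc_node (by decide +kernel) (Dc_node (by decide +kernel) ok132 ok133) (Dc_node (by decide +kernel) ok134 ok135))) (Dc_node (by decide +kernel) (Dc_node (by decide +kernel) (Dc_node (by decide +kernel) ok136 ok137) (Dc_node (by decide +kernel) ok138 ok139)) (Dc_node (by decide +kernel) (Dc_node (by decide +kernel) ok140 ok141) (Dc_node (by decide +kernel) ok142 ok143))))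

end Pool.Agent.Helper91.VD1
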