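import Pool.Agent.Helper91.VZ.Sound
import Pool.Agent.Helper91.VD1.DT

/-! checks -/

namespace Pool.Agent.Helper91.VD1

open Pool.Agent.Helper91.VZ

theorem ok144 : Dc.ok DT B144 := Dc_ok_of_okb (by decide +kernel)

theorem ok145 : Dc.ok DT B145 := Dc_ok_of_okb (by decide +kernel)

theorem ok146 : Dc.ok DT B146 := Dc_ok_of_okb (by decide +kernel)

theorem ok147 : Dc.ok DT B147 := Dc_ok_of_okb (by decide +kernel)

theorem ok148 : Dc.ok DT B148 := Dc_ok_of_okb (by decide +kernel)

theorem ok149 : Dc.ok DT B149 := Dc_ok_of_okb (by decide +kernel)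

theorem ok150 : Dc.ok DT B150 := Dc_ok_of_okb (by decide +kernel)

theorem ok151 : Dc.ok DT B151 := Dc_ok_of_okb (by decide +kernel)

theorem ok152 : Dc.ok DT B152 := Dc_ok_of_okb (by decide +kernel)

theorem ok153 : Dc.ok DT B153 := Dc_ok_of_okb (by decide +kernel)

theorem ok154 : Dc.ok DT B154 := Dc_ok_of_okb (by decide +kernel)

theorem ok155 : Dc.ok DT B155 := Dc_ok_of_okb (by decide +kernel)

theorem ok156 : Dc.ok DT B156 := Dc_ok_of_okb (by decide +kernel)

theorem ok157 : Dc.ok DT B157 := Dc_ok_of_okb (by decide +kernel)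

theorem ok158 : Dc.ok DT B158 := Dc_ok_of_okb (by decide +kernel)

theorem ok159 : Dc.ok DT B159 := Dc_ok_of_okb (by decide +kernel)

theorem okE9 : Dc.ok DT E9 :=
  (Dc_node (by decide +kernel) (Dc_node (by decide +kernel) (Dc_node (by decide +kernel) (Dc_node (by decide +kernel) ok144 ok145) (Dc_node (by decide +kernel) ok146 ok147)) (Dc_node (by decide +kernel) (Dc_node (by decide +kernel) ok148 ok149) (Dc_node (by decide +kernel) ok150 ok151))) (Dc_node (by decide +kernel) (Dc_node (by decide +kernel) (Dc_node (by decide +kernel) ok152 ok153) (Dc_node (by decide +kernel) ok154 ok155)) (Dc_node (by decide +kernel) (Dc_node (by decide +kernel) ok156 ok157) (Dc_node (by decide +kernel) ok158 ok159))))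

end Pool.Agent.Helper91.VD1
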