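import Pool.Agent.Helper91.VD1.C0
import Pool.Agent.Helper91.VD1.C1
import Pool.Agent.Helper91.VD1.C2
import Pool.Agent.Helper91.VD1.C3
import Pool.Agent.Helper91.VD1.C4
import Pool.Agent.Helper91.VD1.C5
import Pool.Agent.Helper91.VD1.C6
import Pool.Agent.Helper91.VD1.C7
import Pool.Agent.Helper91.VD1.C8
import Pool.Agent.Helper91.VD1.C9
import Pool.Agent.Helper91.VD1.C10
import Pool.Agent.Helper91.VD1.C11
import Pool.Agent.Helper91.VD1.C12
import Pool.Agent.Helper91.VD1.C13
import Pool.Agent.Helper91.VD1.C14
import Pool.Agent.Helper91.VD1.C15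
import Pool.Agent.Helper91.VD1.C16
import Pool.Agent.Helper91.VD1.C17
import Pool.Agent.Helper91.VD1.C18
import Pool.Agent.Helper91.VD1.C19
import Pool.Agent.Helper91.VD1.C20
import Pool.Agent.Helper91.VD1.C21
import Pool.Agent.Helper91.VD1.C22
import Pool.Agent.Helper91.VD1.C23
import Pool.Agent.Helper91.VD1.C24
import Pool.Agent.Helper91.VD1.C25
import Pool.Agent.Helper91.VD1.C26
import Pool.Agent.Helper91.VD1.C27
import Pool.Agent.Helper91.VD1.C28
import Pool.Agent.Helper91.VD1.C29
import Pool.Agent.Helper91.VD1.C30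
import Pool.Agent.Helper91.VD1.C31

/-! all entries -/

namespace Pool.Agent.Helper91.VD1

open Pool.Agent.Helper91.VZ

theorem all : Dc.ok DT DT :=
  (Dc_node (by decide +kernel) (Dc_node (by decide +kernel) (Dc_node (by decide +kernel) (Dc_node (by decide +kernel) (Dc_node (by decide +kernel) okE0 okE1) (Dc_node (by decide +kernel) okE2 okE3)) (Dc_node (by decide +kernel) (Dc_node (by decide +kernel) okE4 okE5) (Dc_node (by decide +kernel) okE6 okE7))) (Dc_node (by decide +kernel) (Dc_node (by decide +kernel) (Dc_node (by decide +kernel) okE8 okE9) (Dc_node (by decide +kernel) okE10 okE11)) (Dc_node (by decide +kernel) (Dc_node (by decide +kernel) okE12 okE13) (Dc_node (by decide +kernel) okE14 okE15)))) (Dc_node (by decide +kernel) (Dc_node (by decide +kernel) (Dc_node (by decide +kernel) (Dc_node (by decide +kernel) okE16 okE17) (Dc_node (by decide +kernel) okE18 okE19)) (Dc_node (by decide +kernel) (Dc_node (by decide +kernel) okE20 okE21) (Dc_node (by decide +kernel) okE22 okE23))) (Dc_node (by decide +kernel) (Dc_node (by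 decide +kernel) (Dc_node (by decide +kernel) okE24 okE25) (Dc_node (by decide +kernel) okE26 okE27)) (Dc_node (by decide +kernel) (Dc_node (by decide +kernel) okE28 okE29) (Dc_node (by decide +kernel) okE30 okE31)))))

end Pool.Agent.Helper91.VD1
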