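import Pool.Agent.Helper91.VZ.Sound
import Pool.Agent.Helper91.VD1.DT

/-! checks -/

namespace Pool.Agent.Helper91.VD1

open Pool.Agent.Helper91.VZ

theorem ok0 : Dc.ok DT B0 := Dc_ok_of_okb (by decide +kernel)

theorem ok1 : Dc.ok DT B1 := Dc_ok_of_okb (by decide +kernel)

theorem ok2 : Dc.ok DT B2 := Dc_ok_of_okb (by decide +kernel)

theorem ok3 : Dc.ok DT B3 := Dc_ok_of_okb (by decide +kernel)

theorem ok4 : Dc.ok DT B4 := Dc_ok_of_okb (by decide +kernel)

theorem ok5 : Dc.ok DT B5 := Dc_ok_of_okb (by decide +kernel)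

theorem ok6 : Dc.ok DT B6 := Dc_ok_of_okb (by decide +kernel)

theorem ok7 : Dc.ok DT B7 := Dc_ok_of_okb (by decide +kernel)

theorem ok8 : Dc.ok DT B8 := Dc_ok_of_okb (by decide +kernel)

theorem ok9 : Dc.ok DT B9 := Dc_ok_of_okb (by decide +kernel)

theorem ok10 : Dc.ok DT B10 := Dc_ok_of_okb (by decide +kernel)

theorem ok11 : Dc.ok DT B11 := Dc_ok_of_okb (by decide +kernel)

theorem ok12 : Dc.ok DT B12 := Dc_ok_of_okb (by decide +kernel)

theorem ok13 : Dc.ok DT B13 := Dc_ok_of_okb (by decide +kernel)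

theorem ok14 : Dc.ok DT B14 := Dc_ok_of_okb (by decide +kernel)

theorem ok15 : Dc.ok DT B15 := Dc_ok_of_okb (by decide +kernel)

theorem okE0 : Dc.ok DT E0 :=
  (Dc_node (by decide +kernel) (Dc_node (by decide +kernel) (Dc_node (by decide +kernel) (Dc_node (by decide +kernel) ok0 ok1) (Dc_node (by decide +kernel) ok2 ok3)) (Dc_node (by decide +kernel) (Dc_node (by decide +kernel) ok4 ok5) (Dc_node (by decide +kernel) ok6 ok7))) (Dc_node (by decide +kernel) (Dc_node (by decide +kernel) (Dc_node (by decide +kernel) ok8 ok9) (Dc_node (by decide +kernel) ok10 ok11)) (Dc_node (by decide +kernel) (Dc_node (by decide +kernel) ok12 ok13) (Dc_node (by decide +kernel) ok14 ok15))))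

end Pool.Agent.Helper91.VD1
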