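import Pool.Agent.Helper91.VZ.Sound
import Pool.Agent.Helper91.VD1.DT

/-! checks -/

namespace Pool.Agent.Helper91.VD1

open Pool.Agent.Helper91.VZ

theorem ok240 : Dc.ok DT B240 := Dc_ok_of_okb (by decide +kernel)

theorem ok241 : Dc.ok DT B241 := Dc_ok_of_okb (by decide +kernel)

theorem ok242 : Dc.ok DT B242 := Dc_ok_of_okb (by decide +kernel)

theorem ok243 : Dc.ok DT B243 := Dc_ok_of_okb (by decide +kernel)

theorem ok244 : Dc.ok DT B244 := Dc_ok_of_okb (by decide +kernel)

theorem ok245 : Dc.ok DT B245 := Dc_ok_of_okb (by decide +kernel)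

theorem ok246 : Dc.ok DT B246 := Dc_ok_of_okb (by decide +kernel)

theorem ok247 : Dc.ok DT B247 := Dc_ok_of_okb (by decide +kernel)

theorem ok248 : Dc.ok DT B248 := Dc_ok_of_okb (by decide +kernel)

theorem ok249 : Dc.ok DT B249 := Dc_ok_of_okb (by decide +kernel)

theorem ok250 : Dc.ok DT B250 := Dc_ok_of_okb (by decide +kernel)

theorem ok251 : Dc.ok DT B251 := Dc_ok_of_okb (by decide +kernel)

theorem ok252 : Dc.ok DT B252 := Dc_ok_of_okb (by decide +kernel)

theorem ok253 : Dc.ok DT B253 := Dc_ok_of_okb (by decide +kernel)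

theorem ok254 : Dc.ok DT B254 := Dc_ok_of_okb (by decide +kernel)

theorem ok255 : Dc.ok DT B255 := Dc_ok_of_okb (by decide +kernel)

theorem okE15 : Dc.ok DT E15 :=
  (Dc_node (by decide +kernel) (Dc_node (by decide +kernel) (Dc_node (by decide +kernel) (Dc_node (by decide +kernel) ok240 ok241) (Dc_node (by decide +kernel) ok242 ok243)) (Dc_node (by decide +kernel) (Dc_node (by decide +kernel) ok244 ok245) (Dc_node (by decide +kernel) ok246 ok247))) (Dc_node (by decide +kernel) (Dc_node (by decide +kernel) (Dc_node (by decide +kernel) ok248 ok249) (Dc_node (by decide +kernel) ok250 ok251)) (Dc_node (by decide +kernel) (Dc_node (by decide +kernel) ok252 ok253) (Dc_node (by decide +kernel) ok254 ok255))))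

end Pool.Agent.Helper91.VD1
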