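import Pool.Agent.Helper91.VZ.Sound
import Pool.Agent.Helper91.VD1.DT

/-! checks -/

namespace Pool.Agent.Helper91.VD1

open Pool.Agent.Helper91.VZ

theorem ok480 : Dc.ok DT B480 := Dc_ok_of_okb (by decide +kernel)

theorem ok481 : Dc.ok DT B481 := Dc_ok_of_okb (by decide +kernel)

theorem ok482 : Dc.ok DT B482 := Dc_ok_of_okb (by decide +kernel)

theorem ok483 : Dc.ok DT B483 := Dc_ok_of_okb (by decide +kernel)

theorem ok484 : Dc.ok DT B484 := Dc_ok_of_okb (by decide +kernel)

theorem ok485 : Dc.ok DT B485 := Dc_ok_of_okb (by decide +kernel)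

theorem ok486 : Dc.ok DT B486 := Dc_ok_of_okb (by decide +kernel)

theorem ok487 : Dc.ok DT B487 := Dc_ok_of_okb (by decide +kernel)

theorem ok488 : Dc.ok DT B488 := Dc_ok_of_okb (by decide +kernel)

theorem ok489 : Dc.ok DT B489 := Dc_ok_of_okb (by decide +kernel)

theorem ok490 : Dc.ok DT B490 := Dc_ok_of_okb (by decide +kernel)

theorem ok491 : Dc.ok DT B491 := Dc_ok_of_okb (by decide +kernel)

theorem ok492 : Dc.ok DT B492 := Dc_ok_of_okb (by decide +kernel)

theorem ok493 : Dc.ok DT B493 := Dc_ok_of_okb (by decide +kernel)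

theorem ok494 : Dc.ok DT B494 := Dc_ok_of_okb (by decide +kernel)

theorem ok495 : Dc.ok DT B495 := Dc_ok_of_okb (by decide +kernel)

theorem okE30 : Dc.ok DT E30 :=
  (Dc_node (by decide +kernel) (Dc_node (by decide +kernel) (Dc_node (by decide +kernel) (Dc_node (by decide +kernel) ok480 ok481) (Dc_node (by decide +kernel) ok482 ok483)) (Dc_node (by decide +kernel) (Dc_node (by decide +kernel) ok484 ok485) (Dc_node (by decide +kernel) ok486 ok487))) (Dc_node (by decide +kernel) (Dc_node (by decide +kernel) (Dc_node (by decide +kernel) ok488 ok489) (Dc_node (by decide +kernel) ok490 ok491)) (Dc_node (by decide +kernel) (Dc_node (by decide +kernel) ok492 ok493) (Dc_node (by decide +kernel) ok494 ok495))))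

end Pool.Agent.Helper91.VD1
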